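import Mathlib
import Pool.Agent.Helper872.Sch.Base

/-!
The Hilbert-Schmidt identity for finite families of finite rank operators.
-/

namespace Pool.Agent.R450.Cl

open ContinuousLinearMap InnerProductSpace
open scoped ENNReal
open Pool.Agent.Helper872.Sch

universe u
variable {H : Type u} [NormedAddCommGroup H] [InnerProductSpace ℂ H] [CompleteSpace H]

theorem hs_bessel {κ ι : Type*} (g : HilbertBasis ι ℂ H) {e : κ → H} (he : Orthonormal ℂ e)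
    (a : H →L[ℂ] H) : ∑' i, ‖a (e i)‖ₑ ^ 2 ≤ ∑' j, ‖a (g j)‖ₑ ^ 2 := by
  calc ∑' i, ‖a (e i)‖ₑ ^ 2 = ∑' i, ∑' j, ‖⟪g j, a (e i)⟫_ℂ‖ₑ ^ 2 := by
        simp only [parseval]
    _ = ∑' j, ∑' i, ‖⟪g j, a (e i)⟫_ℂ‖ₑ ^ 2 := ENNReal.tsum_comm
    _ = ∑' j, ∑' i, ‖⟪e i, adjoint a (g j)⟫_ℂ‖ₑ ^ 2 := by
        congr 1; ext j; congr 1; ext i
        rw [enorm_inner_symm (e i), adjoint_inner_left]
    _ ≤ ∑' j, ‖adjoint a (g j)‖ₑ ^ 2 := ENNReal.tsum_le_tsum fun j => bessel he _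
    _ = ∑' j, ∑' k, ‖⟪g k, adjoint a (g j)⟫_ℂ‖ₑ ^ 2 := by simp only [parseval]
    _ = ∑' k, ∑' j, ‖⟪g k, adjoint a (g j)⟫_ℂ‖ₑ ^ 2 := ENNReal.tsum_comm
    _ = ∑' k, ∑' j, ‖⟪g j, a (g k)⟫_ℂ‖ₑ ^ 2 := by
        congr 1; ext k; congr 1; ext j
        rw [enorm_inner_symm (g k), adjoint_inner_left]
    _ = ∑' k, ‖a (g k)‖ₑ ^ 2 := by simp only [parseval]

variable {I J : Type*} [Fintype I] [Fintype J] [DecidableEq J]

/-- The vector identity behind the Hilbert-Schmidt identity. -/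
theorem vec_identity {M : I → J → ℝ} {N : ℝ}
    (hM : ∀ j j', ∑ l, M l j * M l j' = if j = j' then N else 0) (x : J → H) :
    ∑ l, ‖∑ j, (M l j : ℂ) • x j‖ ^ 2 = N * ∑ j, ‖x j‖ ^ 2 := by
  have h1 : ∀ l, ‖∑ j, (M l j : ℂ) • x j‖ ^ 2
      = ∑ j, ∑ j', (M l j * M l j') * (⟪x j, x j'⟫_ℂ).re := by
    intro l
    rw [← inner_self_eq_norm_sq (𝕜 := ℂ), sum_inner]
    simp only [inner_sum, inner_smul_left, inner_smul_right, Complex.conj_ofReal]
    rw [map_sum]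
    refine Finset.sum_congr rfl fun j _ => ?_
    rw [map_sum]
    refine Finset.sum_congr rfl fun j' _ => ?_
    rw [← mul_assoc, ← Complex.ofReal_mul]
    simp [mul_comm]
  simp only [h1]
  rw [Finset.sum_comm]
  rw [Finset.mul_sum]
  refine Finset.sum_congr rfl fun j _ => ?_
  rw [Finset.sum_comm]
  simp only [← Finset.sum_mul, hM]
  rw [Finset.sum_eq_single j]
  · rw [if_pos rfl]
    congr 1
    exact inner_self_eq_norm_sq (𝕜 := ℂ) (x j)
  · intro j' _ hj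
    rw [if_neg (fun h => hj h.symm), zero_mul]
  · intro h
    exact absurd (Finset.mem_univ j) h

theorem ofReal_norm_sq (y : H) : ENNReal.ofReal (‖y‖ ^ 2) = ‖y‖ₑ ^ 2 := by
  rw [ENNReal.ofReal_pow (norm_nonneg _), ofReal_norm]

theorem ofReal_norm_sq' (y : ℂ) : ENNReal.ofReal (‖y‖ ^ 2) = ‖y‖ₑ ^ 2 := by
  rw [ENNReal.ofReal_pow (norm_nonneg _), ofReal_norm]

/-- a finite rank operator given by a finite sum of rank one operators -/
noncomputable def frop {τ : Type*} [Fintype τ] (c : τ → ℂ) (u v : τ → H) : H →L[ℂ] H :=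
  ∑ k, c k • (innerSL ℂ (u k)).smulRight (v k)

omit [CompleteSpace H] in
theorem frop_apply {τ : Type*} [Fintype τ] (c : τ → ℂ) (u v : τ → H) (x : H) :
    frop c u v x = ∑ k, (c k * ⟪u k, x⟫_ℂ) • v k := by
  unfold frop
  rw [ContinuousLinearMap.sum_apply]
  refine Finset.sum_congr rfl fun k _ => ?_
  simp [mul_smul]

theorem frop_norm {τ : Type*} [Fintype τ] (c : τ → ℂ) (u : τ → H) {v : τ → H}
    (hv : Orthonormal ℂ v) (x : H) :
    ‖frop c u v x‖ₑ ^ 2 = ∑ k, ‖c k‖ₑ ^ 2 * ‖⟪u k, x⟫_ℂ‖ₑ ^ 2 := by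
  classical
  have h1 : ‖frop c u v x‖ ^ 2 = ∑ k, ‖c k * ⟪u k, x⟫_ℂ‖ ^ 2 := by
    rw [frop_apply, ← inner_self_eq_norm_sq (𝕜 := ℂ), hv.inner_sum, map_sum]
    refine Finset.sum_congr rfl fun k _ => ?_
    rw [RCLike.conj_mul]
    norm_cast
  rw [← ofReal_norm_sq, h1, ENNReal.ofReal_sum_of_nonneg (fun _ _ => by positivity)]
  refine Finset.sum_congr rfl fun k _ => ?_
  rw [ofReal_norm_sq', enorm_mul, mul_pow]

theorem tsum_fsum {α β : Type*} [Fintype β] (f : α → β → ℝ≥0∞) :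
    ∑' h, ∑ j, f h j = ∑ j, ∑' h, f h j :=
  Summable.tsum_finsetSum (fun _ _ => ENNReal.summable)

theorem hs_main {M : I → J → ℝ} {N : ℝ} (hN : 0 ≤ N)
    (hM : ∀ j j', ∑ l, M l j * M l j' = if j = j' then N else 0)
    {κ : I → Type*} [∀ l, Fintype (κ l)] {e : ∀ l, κ l → H} (he : ∀ l, Orthonormal ℂ (e l))
    {τ : J → Type*} [∀ j, Fintype (τ j)] {c : ∀ j, τ j → ℂ} {u v : ∀ j, τ j → H}
    (hu : ∀ j k, ‖u j k‖ = 1) (hv : ∀ j, Orthonormal ℂ (v j)) :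
    ∑ l, ∑ i, ‖∑ j, (M l j : ℂ) • frop (c j) (u j) (v j) (e l i)‖ ^ 2
      ≤ N * ∑ j, ∑ k, ‖c j k‖ ^ 2 := by
  obtain ⟨w, g, hg⟩ := exists_hilbertBasis ℂ H
  let A : I → (H →L[ℂ] H) := fun l => ∑ j, (M l j : ℂ) • frop (c j) (u j) (v j)
  have hA : ∀ l x, A l x = ∑ j, (M l j : ℂ) • frop (c j) (u j) (v j) x := by
    intro l x
    simp only [A, ContinuousLinearMap.sum_apply, ContinuousLinearMap.smul_apply]
  have hpar : ∀ j k, ∑' h, ‖⟪u j k, g h⟫_ℂ‖ₑ ^ 2 = 1 := by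
    intro j k
    have h1 := parseval g (u j k)
    rw [← ofReal_norm, hu j k, ENNReal.ofReal_one, one_pow] at h1
    rw [← h1]
    congr 1; ext h
    rw [enorm_inner_symm]
  have key : ∑ l, ∑ i, ‖A l (e l i)‖ₑ ^ 2 ≤ ENNReal.ofReal N * ∑ j, ∑ k, ‖c j k‖ₑ ^ 2 := by
    calc ∑ l, ∑ i, ‖A l (e l i)‖ₑ ^ 2 = ∑ l, ∑' i, ‖A l (e l i)‖ₑ ^ 2 := by
          simp only [tsum_fintype]
      _ ≤ ∑ l, ∑' h, ‖A l (g h)‖ₑ ^ 2 := Finset.sum_le_sum fun l _ => hs_bessel g (he l) _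
      _ = ∑' h, ∑ l, ‖A l (g h)‖ₑ ^ 2 := (tsum_fsum _).symm
      _ = ∑' h, ENNReal.ofReal N * ∑ j, ‖frop (c j) (u j) (v j) (g h)‖ₑ ^ 2 := by
          congr 1; ext h
          have h1 := vec_identity hM (fun j => frop (c j) (u j) (v j) (g h))
          simp only [← hA] at h1
          simp only [← ofReal_norm_sq]
          rw [← ENNReal.ofReal_sum_of_nonneg (fun _ _ => by positivity),
            ← ENNReal.ofReal_sum_of_nonneg (fun _ _ => by positivity), h1,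
            ENNReal.ofReal_mul hN]
      _ = ENNReal.ofReal N * ∑ j, ∑ k, ‖c j k‖ₑ ^ 2 := by
          rw [ENNReal.tsum_mul_left]
          congr 1
          simp only [frop_norm _ _ (hv _)]
          rw [tsum_fsum]
          refine Finset.sum_congr rfl fun j _ => ?_
          rw [tsum_fsum]
          refine Finset.sum_congr rfl fun k _ => ?_
          rw [ENNReal.tsum_mul_left, hpar, mul_one]
  have e1 : ∑ l, ∑ i, ‖A l (e l i)‖ₑ ^ 2 = ENNReal.ofReal (∑ l, ∑ i, ‖A l (e l i)‖ ^ 2) := by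
    rw [ENNReal.ofReal_sum_of_nonneg (fun _ _ => by positivity)]
    refine Finset.sum_congr rfl fun l _ => ?_
    rw [ENNReal.ofReal_sum_of_nonneg (fun _ _ => by positivity)]
    simp only [ofReal_norm_sq]
  have e2 : ENNReal.ofReal N * ∑ j, ∑ k, ‖c j k‖ₑ ^ 2
      = ENNReal.ofReal (N * ∑ j, ∑ k, ‖c j k‖ ^ 2) := by
    rw [ENNReal.ofReal_mul hN, ENNReal.ofReal_sum_of_nonneg (fun _ _ => by positivity)]
    congr 1
    refine Finset.sum_congr rfl fun j _ => ?_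
    rw [ENNReal.ofReal_sum_of_nonneg (fun _ _ => by positivity)]
    simp only [ofReal_norm_sq']
  rw [e1, e2] at key
  have h3 := (ENNReal.ofReal_le_ofReal_iff (by positivity)).1 key
  simpa only [hA] using h3

end Pool.Agent.R450.Cl
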