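import Mathlib

/-!
Finite sums of exponentials on the strip and the three lines bound.
-/

namespace Pool.Agent.R450.Cl

open Complex

/-- Entire and bounded on the closed unit strip. -/
def StripNice (F : ℂ → ℂ) : Prop :=
  Differentiable ℂ F ∧ ∃ C : ℝ, ∀ z : ℂ, 0 ≤ z.re → z.re ≤ 1 → ‖F z‖ ≤ C

theorem StripNice.const (c : ℂ) : StripNice (fun _ => c) :=
  ⟨differentiable_const c, ‖c‖, fun _ _ _ => le_rfl⟩

theorem StripNice.mul {F G : ℂ → ℂ} (hF : StripNice F) (hG : StripNice G) :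
    StripNice (fun z => F z * G z) := by
  obtain ⟨hF1, C, hC⟩ := hF
  obtain ⟨hG1, D, hD⟩ := hG
  refine ⟨hF1.mul hG1, C * D, fun z h0 h1 => ?_⟩
  rw [norm_mul]
  exact mul_le_mul (hC z h0 h1) (hD z h0 h1) (norm_nonneg _) ((norm_nonneg _).trans (hC z h0 h1))

theorem StripNice.sum {ι : Type*} (s : Finset ι) {F : ι → ℂ → ℂ}
    (h : ∀ i ∈ s, StripNice (F i)) : StripNice (fun z => ∑ i ∈ s, F i z) := by
  classical
  induction s using Finset.induction_on with
  | empty => simpa using StripNice.const 0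
  | insert a s ha ih =>
    simp only [Finset.sum_insert ha]
    obtain ⟨hF1, C, hC⟩ := h a (Finset.mem_insert_self a s)
    obtain ⟨hG1, D, hD⟩ := ih (fun i hi => h i (Finset.mem_insert_of_mem hi))
    refine ⟨hF1.add hG1, C + D, fun z h0 h1 => ?_⟩
    exact (norm_add_le _ _).trans (add_le_add (hC z h0 h1) (hD z h0 h1))

/-- exponential of an affine function with real coefficients -/
noncomputable def ea (α β : ℝ) (z : ℂ) : ℂ := Complex.exp ((α : ℂ) + (β : ℂ) * z)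

theorem norm_ea (α β : ℝ) (z : ℂ) : ‖ea α β z‖ = Real.exp (α + β * z.re) := by
  unfold ea
  rw [Complex.norm_exp]
  simp

theorem ea_real (α β x : ℝ) : ea α β x = ((Real.exp (α + β * x) : ℝ) : ℂ) := by
  unfold ea
  push_cast
  rfl

theorem StripNice.ea (α β : ℝ) : StripNice (ea α β) := by
  refine ⟨?_, Real.exp (α + |β|), fun z h0 h1 => ?_⟩
  · unfold Cl.ea
    fun_prop
  · rw [norm_ea]
    apply Real.exp_le_exp.2
    have h2 : β * z.re ≤ |β| * z.re := mul_le_mul_of_nonneg_right (le_abs_self β) h0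
    have h3 : |β| * z.re ≤ |β| * 1 := mul_le_mul_of_nonneg_left h1 (abs_nonneg β)
    linarith

theorem threeLines {F : ℂ → ℂ} (hF : StripNice F) {C1 : ℝ} (h0 : ∀ z : ℂ, z.re = 0 → ‖F z‖ ≤ 1)
    (h1 : ∀ z : ℂ, z.re = 1 → ‖F z‖ ≤ C1) {θ : ℝ} (hθ0 : 0 ≤ θ) (hθ1 : θ ≤ 1) :
    ‖F θ‖ ≤ C1 ^ θ := by
  obtain ⟨hd, C, hC⟩ := hF
  have h := Complex.HadamardThreeLines.norm_le_interp_of_mem_verticalClosedStrip₀₁' F (z := (θ : ℂ))
    (a := 1) (b := C1) ⟨by simpa using hθ0, by simpa using hθ1⟩ hd.diffContOnCl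
    ⟨C, by
      rintro y ⟨z, hz, rfl⟩
      exact hC z hz.1 hz.2⟩ (fun z hz => h0 z hz) (fun z hz => h1 z hz)
  simpa using h

end Pool.Agent.R450.Cl
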