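import Mathlib
import Pool.Agent.R450.Cl.Strip
import Pool.Agent.R450.Cl.HS

/-!
The interpolation inequality for finite families.
-/

namespace Pool.Agent.R450.Cl

open ContinuousLinearMap InnerProductSpace
open scoped ENNReal
open Pool.Agent.Helper872.Sch

universe u
variable {H : Type u} [NormedAddCommGroup H] [InnerProductSpace ℂ H]

theorem inner_frop {J : Type*} [Fintype J] {τ : J → Type*} [∀ j, Fintype (τ j)] (M : J → ℝ)
    (c : ∀ j, τ j → ℂ) (u v : ∀ j, τ j → H) (e f : H) :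
    ⟪f, ∑ j, (M j : ℂ) • frop (c j) (u j) (v j) e⟫_ℂ
      = ∑ j, ∑ k, (M j : ℂ) * (c j k * (⟪u j k, e⟫_ℂ * ⟪f, v j k⟫_ℂ)) := by
  rw [inner_sum]
  refine Finset.sum_congr rfl fun j _ => ?_
  rw [inner_smul_right, frop_apply, inner_sum, Finset.mul_sum]
  refine Finset.sum_congr rfl fun k _ => ?_
  rw [inner_smul_right]
  ring

theorem cs_bessel {κ : Type*} [Fintype κ] {e f : κ → H} (he : Orthonormal ℂ e)
    (hf : Orthonormal ℂ f) {x y : H} (hx : ‖x‖ = 1) (hy : ‖y‖ = 1) :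
    ∑ i, ‖⟪x, e i⟫_ℂ‖ * ‖⟪f i, y⟫_ℂ‖ ≤ 1 := by
  have h1 : ∑ i, ‖⟪x, e i⟫_ℂ‖ ^ 2 ≤ 1 := by
    have h := he.sum_inner_products_le x (s := Finset.univ)
    rw [hx, one_pow] at h
    simpa only [norm_inner_symm x] using h
  have h2 : ∑ i, ‖⟪f i, y⟫_ℂ‖ ^ 2 ≤ 1 := by
    have h := hf.sum_inner_products_le y (s := Finset.univ)
    rwa [hy, one_pow] at h
  have h3 : ∀ i, ‖⟪x, e i⟫_ℂ‖ * ‖⟪f i, y⟫_ℂ‖
      ≤ (‖⟪x, e i⟫_ℂ‖ ^ 2 + ‖⟪f i, y⟫_ℂ‖ ^ 2) / 2 := fun i => by
    nlinarith [sq_nonneg (‖⟪x, e i⟫_ℂ‖ - ‖⟪f i, y⟫_ℂ‖)]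
  calc ∑ i, ‖⟪x, e i⟫_ℂ‖ * ‖⟪f i, y⟫_ℂ‖
      ≤ ∑ i, (‖⟪x, e i⟫_ℂ‖ ^ 2 + ‖⟪f i, y⟫_ℂ‖ ^ 2) / 2 := Finset.sum_le_sum fun i _ => h3 i
    _ = ((∑ i, ‖⟪x, e i⟫_ℂ‖ ^ 2) + ∑ i, ‖⟪f i, y⟫_ℂ‖ ^ 2) / 2 := by
        rw [← Finset.sum_div, Finset.sum_add_distrib]
    _ ≤ 1 := by linarith

theorem key {I J : Type*} [Fintype I] [Fintype J] [DecidableEq J] [CompleteSpace H]
    {M : I → J → ℝ} {N : ℝ} (hN : 0 ≤ N) (hM1 : ∀ l j, |M l j| ≤ 1)
    (hM : ∀ j j', ∑ l, M l j * M l j' = if j = j' then N else 0)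
    {κ : I → Type*} [∀ l, Fintype (κ l)] {d : ∀ l, κ l → ℝ} {e f : ∀ l, κ l → H}
    (he : ∀ l, Orthonormal ℂ (e l)) (hf : ∀ l, Orthonormal ℂ (f l)) (hd : ∀ l i, 0 < d l i)
    {τ : J → Type*} [∀ j, Fintype (τ j)] {s : ∀ j, τ j → ℝ} {u v : ∀ j, τ j → H}
    (hu : ∀ j, Orthonormal ℂ (u j)) (hv : ∀ j, Orthonormal ℂ (v j)) (hs : ∀ j k, 0 < s j k)
    {p q : ℝ} (hpq : p.HolderConjugate q) (hp2 : p ≤ 2)
    (hs1 : ∑ j, ∑ k, s j k ^ p ≤ 1) (hd1 : ∑ l, (∑ i, d l i ^ q) ^ (p / q) ≤ 1) :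
    ‖∑ l, ∑ i, (d l i : ℂ) *
      ⟪f l i, ∑ j, (M l j : ℂ) • frop (fun k => (s j k : ℂ)) (u j) (v j) (e l i)⟫_ℂ‖
      ≤ N ^ (1 / q) := by
  have hp0 : 0 < p := hpq.pos
  have hq0 : 0 < q := hpq.symm.pos
  have hq2 : 2 ≤ q := by
    have h1 := hpq.inv_add_inv_eq_one
    by_contra hlt
    push Not at hlt
    have h2 : (2 : ℝ)⁻¹ < q⁻¹ := by
      rw [inv_lt_inv₀ (by norm_num) hq0]; exact hlt
    have h3 : (2 : ℝ)⁻¹ ≤ p⁻¹ := by
      rw [inv_le_inv₀ (by norm_num) hp0]; exact hp2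
    norm_num at h2 h3
    linarith
  set b : I → ℝ := fun l => (∑ i, d l i ^ q) ^ (1 / q) with hb
  have hdq : ∀ l i, 0 < d l i ^ q := fun l i => Real.rpow_pos_of_pos (hd l i) q
  have hbq : ∀ l, b l ^ q = ∑ i, d l i ^ q := by
    intro l
    rw [hb]
    dsimp only
    rw [← Real.rpow_mul (Finset.sum_nonneg fun i _ => (hdq l i).le), one_div,
      inv_mul_cancel₀ hq0.ne', Real.rpow_one]
  have hbp : ∀ l, b l ^ p = (∑ i, d l i ^ q) ^ (p / q) := by
    intro l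
    rw [hb]
    dsimp only
    rw [← Real.rpow_mul (Finset.sum_nonneg fun i _ => (hdq l i).le)]
    congr 1
    ring
  have hbnn : ∀ l, 0 ≤ b l := fun l =>
    Real.rpow_nonneg (Finset.sum_nonneg fun i _ => (hdq l i).le) _
  have hbpos : ∀ l, κ l → 0 < b l := by
    intro l i
    apply Real.rpow_pos_of_pos
    exact lt_of_lt_of_le (hdq l i)
      (Finset.single_le_sum (f := fun i => d l i ^ q) (fun i _ => (hdq l i).le) (Finset.mem_univ i))
  -- analytic families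
  set sz : ∀ j, τ j → ℂ → ℂ := fun j k =>
    ea (p * Real.log (s j k)) (-(p / 2) * Real.log (s j k)) with hsz
  set dz : ∀ l, κ l → ℂ → ℂ := fun l i =>
    ea (p * Real.log (b l)) (-(p / 2) * Real.log (b l) + (q / 2) * Real.log (d l i / b l)) with hdz
  set F : ℂ → ℂ := fun z => ∑ l, ∑ i, dz l i z *
      ⟪f l i, ∑ j, (M l j : ℂ) • frop (fun k => sz j k z) (u j) (v j) (e l i)⟫_ℂ with hF
  have hF2 : F = fun z => ∑ l, ∑ i, dz l i z *
      ∑ j, ∑ k, (M l j : ℂ) * (sz j k z * (⟪u j k, e l i⟫_ℂ * ⟪f l i, v j k⟫_ℂ)) := by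
    funext z
    rw [hF]
    refine Finset.sum_congr rfl fun l _ => Finset.sum_congr rfl fun i _ => ?_
    rw [inner_frop]
  have hnice : StripNice F := by
    rw [hF2]
    refine StripNice.sum _ fun l _ => StripNice.sum _ fun i _ => StripNice.mul (StripNice.ea _ _) ?_
    refine StripNice.sum _ fun j _ => StripNice.sum _ fun k _ => ?_
    exact StripNice.mul (StripNice.const _) (StripNice.mul (StripNice.ea _ _) (StripNice.const _))
  have hexp : ∀ {x : ℝ}, 0 < x → ∀ a : ℝ, Real.exp (a * Real.log x) = x ^ a := by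
    intro x hx a
    rw [Real.rpow_def_of_pos hx, mul_comm]
  -- the line re = 0
  have h0 : ∀ z : ℂ, z.re = 0 → ‖F z‖ ≤ 1 := by
    intro z hz
    have hsn : ∀ j k, ‖sz j k z‖ = s j k ^ p := by
      intro j k
      rw [hsz]; dsimp only
      rw [norm_ea, hz, mul_zero, add_zero, hexp (hs j k)]
    have hdn : ∀ l i, ‖dz l i z‖ = b l ^ p := by
      intro l i
      rw [hdz]; dsimp only
      rw [norm_ea, hz, mul_zero, add_zero, hexp (hbpos l i)]
    rw [hF2]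
    dsimp only
    calc ‖∑ l, ∑ i, dz l i z *
          ∑ j, ∑ k, (M l j : ℂ) * (sz j k z * (⟪u j k, e l i⟫_ℂ * ⟪f l i, v j k⟫_ℂ))‖
        ≤ ∑ l, ∑ i, b l ^ p *
          ∑ j, ∑ k, s j k ^ p * (‖⟪u j k, e l i⟫_ℂ‖ * ‖⟪f l i, v j k⟫_ℂ‖) := by
          refine (norm_sum_le _ _).trans (Finset.sum_le_sum fun l _ => ?_)
          refine (norm_sum_le _ _).trans (Finset.sum_le_sum fun i _ => ?_)
          rw [norm_mul, hdn]
          refine mul_le_mul_of_nonneg_left ?_ (Real.rpow_nonneg (hbnn l) _)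
          refine (norm_sum_le _ _).trans (Finset.sum_le_sum fun j _ => ?_)
          refine (norm_sum_le _ _).trans (Finset.sum_le_sum fun k _ => ?_)
          rw [norm_mul, norm_mul, norm_mul, hsn, Complex.norm_real, Real.norm_eq_abs]
          have h1 : 0 ≤ s j k ^ p * (‖⟪u j k, e l i⟫_ℂ‖ * ‖⟪f l i, v j k⟫_ℂ‖) := by
            have := (Real.rpow_pos_of_pos (hs j k) p).le
            positivity
          calc |M l j| * (s j k ^ p * (‖⟪u j k, e l i⟫_ℂ‖ * ‖⟪f l i, v j k⟫_ℂ‖))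
              ≤ 1 * (s j k ^ p * (‖⟪u j k, e l i⟫_ℂ‖ * ‖⟪f l i, v j k⟫_ℂ‖)) :=
                mul_le_mul_of_nonneg_right (hM1 l j) h1
            _ = _ := one_mul _
      _ = ∑ l, b l ^ p * ∑ j, ∑ k, s j k ^ p *
            ∑ i, (‖⟪u j k, e l i⟫_ℂ‖ * ‖⟪f l i, v j k⟫_ℂ‖) := by
          refine Finset.sum_congr rfl fun l _ => ?_
          rw [← Finset.mul_sum]
          congr 1
          rw [Finset.sum_comm]
          refine Finset.sum_congr rfl fun j _ => ?_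
          rw [Finset.sum_comm]
          refine Finset.sum_congr rfl fun k _ => ?_
          rw [Finset.mul_sum]
      _ ≤ ∑ l, b l ^ p * ∑ j, ∑ k, s j k ^ p * 1 := by
          refine Finset.sum_le_sum fun l _ => ?_
          refine mul_le_mul_of_nonneg_left ?_ (Real.rpow_nonneg (hbnn l) _)
          refine Finset.sum_le_sum fun j _ => Finset.sum_le_sum fun k _ => ?_
          exact mul_le_mul_of_nonneg_left (cs_bessel (he l) (hf l) ((hu j).1 k) ((hv j).1 k))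
            (Real.rpow_pos_of_pos (hs j k) p).le
      _ ≤ ∑ l, b l ^ p * 1 := by
          refine Finset.sum_le_sum fun l _ => ?_
          refine mul_le_mul_of_nonneg_left ?_ (Real.rpow_nonneg (hbnn l) _)
          simpa only [mul_one] using hs1
      _ ≤ 1 := by
          simp only [mul_one, hbp]
          exact hd1
  -- the line re = 1
  have h1 : ∀ z : ℂ, z.re = 1 → ‖F z‖ ≤ N ^ (1 / 2 : ℝ) := by
    intro z hz
    have hsn : ∀ j k, ‖sz j k z‖ ^ 2 = s j k ^ p := by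
      intro j k
      rw [hsz]; dsimp only
      rw [norm_ea, hz, ← hexp (hs j k), ← Real.exp_nat_mul]
      congr 1
      push_cast
      ring
    have hdn : ∀ l i, ‖dz l i z‖ ^ 2 = b l ^ p * (d l i / b l) ^ q := by
      intro l i
      rw [hdz]; dsimp only
      rw [norm_ea, hz, ← hexp (hbpos l i), ← hexp (div_pos (hd l i) (hbpos l i)), ← Real.exp_add,
        ← Real.exp_nat_mul]
      congr 1
      push_cast
      ring
    set y : ∀ l, κ l → H := fun l i =>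
      ∑ j, (M l j : ℂ) • frop (fun k => sz j k z) (u j) (v j) (e l i) with hy
    have hA : ∑ l, ∑ i, ‖y l i‖ ^ 2 ≤ N := by
      have h2 := hs_main hN hM he (c := fun j k => sz j k z) (fun j k => (hu j).1 k) hv
      refine h2.trans ?_
      simp only [hsn]
      calc N * ∑ j, ∑ k, s j k ^ p ≤ N * 1 := mul_le_mul_of_nonneg_left hs1 hN
        _ = N := mul_one N
    have hB : ∑ l, ∑ i, ‖dz l i z‖ ^ 2 ≤ 1 := by
      refine le_trans (Finset.sum_le_sum fun l _ => ?_) hd1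
      rw [← hbp]
      simp only [hdn]
      rw [← Finset.mul_sum]
      by_cases hl : IsEmpty (κ l)
      · rw [Finset.univ_eq_empty, Finset.sum_empty, mul_zero]
        exact Real.rpow_nonneg (hbnn l) _
      · rw [not_isEmpty_iff] at hl
        obtain ⟨i0⟩ := hl
        have hb0 := hbpos l i0
        have h3 : ∑ i, (d l i / b l) ^ q = 1 := by
          have h4 : ∀ i, (d l i / b l) ^ q = d l i ^ q / b l ^ q := fun i =>
            Real.div_rpow (hd l i).le hb0.le q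
          simp only [h4]
          rw [← Finset.sum_div, ← hbq, div_self (Real.rpow_pos_of_pos hb0 q).ne']
        rw [h3, mul_one]
    have hC : ‖F z‖ ≤ ∑ l, ∑ i, ‖dz l i z‖ * ‖y l i‖ := by
      rw [hF]
      refine (norm_sum_le _ _).trans (Finset.sum_le_sum fun l _ => ?_)
      refine (norm_sum_le _ _).trans (Finset.sum_le_sum fun i _ => ?_)
      rw [norm_mul]
      refine mul_le_mul_of_nonneg_left ?_ (norm_nonneg _)
      refine (norm_inner_le_norm _ _).trans ?_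
      rw [(hf l).1 i, one_mul]
    have hD : (∑ l, ∑ i, ‖dz l i z‖ * ‖y l i‖) ^ 2 ≤ N := by
      have h2 := Finset.sum_mul_sq_le_sq_mul_sq (Finset.univ : Finset (Σ l, κ l))
        (fun x => ‖dz x.1 x.2 z‖) (fun x => ‖y x.1 x.2‖)
      rw [Fintype.sum_sigma, Fintype.sum_sigma, Fintype.sum_sigma] at h2
      refine h2.trans ?_
      calc (∑ l, ∑ i, ‖dz l i z‖ ^ 2) * ∑ l, ∑ i, ‖y l i‖ ^ 2
          ≤ 1 * N := mul_le_mul hB hA (by positivity) zero_le_one
        _ = N := one_mul N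
    refine hC.trans ?_
    rw [← Real.sqrt_eq_rpow]
    exact Real.le_sqrt_of_sq_le hD
  have hθ1 : 2 / q ≤ 1 := by
    rw [div_le_one hq0]; exact hq2
  have hmain := threeLines hnice h0 h1 (θ := 2 / q) (by positivity) hθ1
  have hpp : p - p / q = 1 := by
    have h2 := hpq.inv_add_inv_eq_one
    field_simp at h2 ⊢
    linarith
  have hFθ : F ((2 / q : ℝ) : ℂ) = ∑ l, ∑ i, (d l i : ℂ) *
      ⟪f l i, ∑ j, (M l j : ℂ) • frop (fun k => (s j k : ℂ)) (u j) (v j) (e l i)⟫_ℂ := by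
    rw [hF]
    dsimp only
    have e1 : ∀ j k, sz j k ((2 / q : ℝ) : ℂ) = (s j k : ℂ) := by
      intro j k
      rw [hsz]; dsimp only
      rw [ea_real]
      congr 1
      rw [show p * Real.log (s j k) + -(p / 2) * Real.log (s j k) * (2 / q)
        = (p - p / q) * Real.log (s j k) by field_simp; ring, hpp, one_mul, Real.exp_log (hs j k)]
    have e2 : ∀ l i, dz l i ((2 / q : ℝ) : ℂ) = (d l i : ℂ) := by
      intro l i
      rw [hdz]; dsimp only
      rw [ea_real]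
      congr 1
      rw [show p * Real.log (b l) + (-(p / 2) * Real.log (b l) + q / 2 * Real.log (d l i / b l))
          * (2 / q) = (p - p / q) * Real.log (b l) + Real.log (d l i / b l) by field_simp; ring,
        hpp, one_mul, Real.exp_add, Real.exp_log (hbpos l i),
        Real.exp_log (div_pos (hd l i) (hbpos l i)), mul_div_cancel₀ _ (hbpos l i).ne']
    simp only [e1, e2]
  rw [hFθ, ← Real.rpow_mul hN] at hmain
  rw [show (1 / 2 : ℝ) * (2 / q) = 1 / q by field_simp] at hmain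
  exact hmain

end Pool.Agent.R450.Cl
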