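import Mathlib
import Pool.Agent.R450.Cl.Key

/-!
Homogeneous form of the interpolation inequality, and the sums along singular bases.
-/

namespace Pool.Agent.R450.Cl

open ContinuousLinearMap InnerProductSpace
open scoped ENNReal
open Pool.Agent.Helper872.Sch

universe u
variable {H : Type u} [NormedAddCommGroup H] [InnerProductSpace ℂ H]

theorem key_hom {I J : Type*} [Fintype I] [Fintype J] [DecidableEq J] [CompleteSpace H]
    {M : I → J → ℝ} {N : ℝ} (hN : 0 ≤ N) (hM1 : ∀ l j, |M l j| ≤ 1)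
    (hM : ∀ j j', ∑ l, M l j * M l j' = if j = j' then N else 0)
    {κ : I → Type*} [∀ l, Fintype (κ l)] {d : ∀ l, κ l → ℝ} {e f : ∀ l, κ l → H}
    (he : ∀ l, Orthonormal ℂ (e l)) (hf : ∀ l, Orthonormal ℂ (f l)) (hd : ∀ l i, 0 < d l i)
    {τ : J → Type*} [∀ j, Fintype (τ j)] {s : ∀ j, τ j → ℝ} {u v : ∀ j, τ j → H}
    (hu : ∀ j, Orthonormal ℂ (u j)) (hv : ∀ j, Orthonormal ℂ (v j)) (hs : ∀ j k, 0 < s j k)
    {p q : ℝ} (hpq : p.HolderConjugate q) (hp2 : p ≤ 2) :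
    ‖∑ l, ∑ i, (d l i : ℂ) * ∑ j, (M l j : ℂ) * ∑ k, (s j k : ℂ) *
      (⟪u j k, e l i⟫_ℂ * ⟪f l i, v j k⟫_ℂ)‖
      ≤ N ^ (1 / q) * (∑ j, ∑ k, s j k ^ p) ^ (1 / p)
        * (∑ l, (∑ i, d l i ^ q) ^ (p / q)) ^ (1 / p) := by
  have hp0 : 0 < p := hpq.pos
  have hq0 : 0 < q := hpq.symm.pos
  have hsp : ∀ j k, 0 < s j k ^ p := fun j k => Real.rpow_pos_of_pos (hs j k) p
  have hdq : ∀ l i, 0 < d l i ^ q := fun l i => Real.rpow_pos_of_pos (hd l i) q
  have hdqs : ∀ l, 0 ≤ ∑ i, d l i ^ q := fun l => Finset.sum_nonneg fun i _ => (hdq l i).le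
  have hdqp : ∀ l, 0 ≤ (∑ i, d l i ^ q) ^ (p / q) := fun l => Real.rpow_nonneg (hdqs l) _
  have hS0 : 0 ≤ ∑ j, ∑ k, s j k ^ p :=
    Finset.sum_nonneg fun j _ => Finset.sum_nonneg fun k _ => (hsp j k).le
  have hD0 : 0 ≤ ∑ l, (∑ i, d l i ^ q) ^ (p / q) := Finset.sum_nonneg fun l _ => hdqp l
  have hR0 : 0 ≤ N ^ (1 / q) * (∑ j, ∑ k, s j k ^ p) ^ (1 / p)
        * (∑ l, (∑ i, d l i ^ q) ^ (p / q)) ^ (1 / p) :=
    mul_nonneg (mul_nonneg (Real.rpow_nonneg hN _) (Real.rpow_nonneg hS0 _))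
      (Real.rpow_nonneg hD0 _)
  rcases eq_or_lt_of_le hS0 with hS | hS
  · have hempty : ∀ j, IsEmpty (τ j) := by
      intro j
      by_contra hne
      rw [not_isEmpty_iff] at hne
      obtain ⟨k⟩ := hne
      have h1 : s j k ^ p ≤ ∑ k, s j k ^ p :=
        Finset.single_le_sum (f := fun k => s j k ^ p) (fun k _ => (hsp j k).le)
          (Finset.mem_univ k)
      have h2 : ∑ k, s j k ^ p ≤ ∑ j, ∑ k, s j k ^ p :=
        Finset.single_le_sum (f := fun j => ∑ k, s j k ^ p)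
          (fun j _ => Finset.sum_nonneg fun k _ => (hsp j k).le) (Finset.mem_univ j)
      linarith [hsp j k]
    have h0 : ∑ l, ∑ i, (d l i : ℂ) * ∑ j, (M l j : ℂ) * ∑ k, (s j k : ℂ) *
      (⟪u j k, e l i⟫_ℂ * ⟪f l i, v j k⟫_ℂ) = 0 := by
      refine Finset.sum_eq_zero fun l _ => Finset.sum_eq_zero fun i _ => ?_
      rw [Finset.sum_eq_zero, mul_zero]
      intro j _
      rw [Finset.sum_eq_zero, mul_zero]
      intro k _
      exact ((hempty j).false k).elim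
    rw [h0, norm_zero]
    exact hR0
  rcases eq_or_lt_of_le hD0 with hD | hD
  · have hempty : ∀ l, IsEmpty (κ l) := by
      intro l
      by_contra hne
      rw [not_isEmpty_iff] at hne
      obtain ⟨i⟩ := hne
      have h1 : d l i ^ q ≤ ∑ i, d l i ^ q :=
        Finset.single_le_sum (f := fun i => d l i ^ q) (fun i _ => (hdq l i).le)
          (Finset.mem_univ i)
      have h3 : 0 < (∑ i, d l i ^ q) ^ (p / q) :=
        Real.rpow_pos_of_pos (lt_of_lt_of_le (hdq l i) h1) _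
      have h2 : (∑ i, d l i ^ q) ^ (p / q) ≤ ∑ l, (∑ i, d l i ^ q) ^ (p / q) :=
        Finset.single_le_sum (f := fun l => (∑ i, d l i ^ q) ^ (p / q))
          (fun l _ => hdqp l) (Finset.mem_univ l)
      linarith
    have h0 : ∑ l, ∑ i, (d l i : ℂ) * ∑ j, (M l j : ℂ) * ∑ k, (s j k : ℂ) *
      (⟪u j k, e l i⟫_ℂ * ⟪f l i, v j k⟫_ℂ) = 0 := by
      refine Finset.sum_eq_zero fun l _ => Finset.sum_eq_zero fun i _ => ?_
      exact ((hempty l).false i).elim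
    rw [h0, norm_zero]
    exact hR0
  set S := ∑ j, ∑ k, s j k ^ p with hSdef
  set D := ∑ l, (∑ i, d l i ^ q) ^ (p / q) with hDdef
  set σ := S ^ (1 / p) with hσ
  set δ := D ^ (1 / p) with hδ
  have hσ0 : 0 < σ := Real.rpow_pos_of_pos hS _
  have hδ0 : 0 < δ := Real.rpow_pos_of_pos hD _
  have hσp : σ ^ p = S := by
    rw [hσ, ← Real.rpow_mul hS.le, one_div, inv_mul_cancel₀ hp0.ne', Real.rpow_one]
  have hδp : δ ^ p = D := by
    rw [hδ, ← Real.rpow_mul hD.le, one_div, inv_mul_cancel₀ hp0.ne', Real.rpow_one]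
  have hs1 : ∑ j, ∑ k, (s j k / σ) ^ p ≤ 1 := by
    have h1 : ∀ j k, (s j k / σ) ^ p = s j k ^ p / S := fun j k => by
      rw [Real.div_rpow (hs j k).le hσ0.le, hσp]
    simp only [h1, ← Finset.sum_div]
    rw [← hSdef, div_self hS.ne']
  have hd1 : ∑ l, (∑ i, (d l i / δ) ^ q) ^ (p / q) ≤ 1 := by
    have h1 : ∀ l, (∑ i, (d l i / δ) ^ q) ^ (p / q) = (∑ i, d l i ^ q) ^ (p / q) / D := by
      intro l
      have h2 : ∀ i, (d l i / δ) ^ q = d l i ^ q / δ ^ q := fun i =>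
        Real.div_rpow (hd l i).le hδ0.le q
      simp only [h2, ← Finset.sum_div]
      rw [Real.div_rpow (hdqs l) (Real.rpow_nonneg hδ0.le _), ← Real.rpow_mul hδ0.le,
        mul_div_cancel₀ _ hq0.ne', hδp]
    simp only [h1, ← Finset.sum_div]
    rw [← hDdef, div_self hD.ne']
  have h := key hN hM1 hM he hf (d := fun l i => d l i / δ) (fun l i => div_pos (hd l i) hδ0)
    hu hv (s := fun j k => s j k / σ) (fun j k => div_pos (hs j k) hσ0) hpq hp2 hs1 hd1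
  have e1 : ∑ l, ∑ i, (d l i : ℂ) * ∑ j, (M l j : ℂ) * ∑ k, (s j k : ℂ) *
      (⟪u j k, e l i⟫_ℂ * ⟪f l i, v j k⟫_ℂ)
      = ((σ : ℂ) * (δ : ℂ)) * ∑ l, ∑ i, ((d l i / δ : ℝ) : ℂ) *
      ⟪f l i, ∑ j, (M l j : ℂ) • frop (fun k => ((s j k / σ : ℝ) : ℂ)) (u j) (v j) (e l i)⟫_ℂ := by
    have hσc : (σ : ℂ) ≠ 0 := by exact_mod_cast hσ0.ne'
    have hδc : (δ : ℂ) ≠ 0 := by exact_mod_cast hδ0.ne'
    rw [Finset.mul_sum]
    refine Finset.sum_congr rfl fun l _ => ?_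
    rw [Finset.mul_sum]
    refine Finset.sum_congr rfl fun i _ => ?_
    rw [inner_frop, Finset.mul_sum, Finset.mul_sum, Finset.mul_sum]
    refine Finset.sum_congr rfl fun j _ => ?_
    rw [Finset.mul_sum, Finset.mul_sum, Finset.mul_sum, Finset.mul_sum]
    refine Finset.sum_congr rfl fun k _ => ?_
    push_cast
    field_simp
  rw [e1, norm_mul, norm_mul, Complex.norm_real, Complex.norm_real, Real.norm_of_nonneg hσ0.le,
    Real.norm_of_nonneg hδ0.le]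
  calc σ * δ * _ ≤ σ * δ * N ^ (1 / q) := mul_le_mul_of_nonneg_left h (by positivity)
    _ = _ := by ring

variable [CompleteSpace H]

theorem sing_hasSum {ι : Type*} {b : HilbertBasis ι ℂ H} {a : H →L[ℂ] H} (hb : SingBasis b a)
    (hc : IsCompactOperator a) {p : ℝ} (hp : 0 < p) (hfin : trPow p a ≠ ⊤) :
    HasSum (fun k : {k // a (b k) ≠ 0} => ‖a (b k)‖ ^ p) (trPow p a).toReal := by
  have h1 := trPow_eq hb (compact_star_mul hc) hp
  have h2 : ∀ i, (‖a (b i)‖ₑ ^ p).toReal = ‖a (b i)‖ ^ p := by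
    intro i
    rw [← ENNReal.toReal_rpow, toReal_enorm]
  have h3 : HasSum (fun i => ‖a (b i)‖ ^ p) (trPow p a).toReal := by
    rw [h1] at hfin ⊢
    have h4 := ENNReal.hasSum_toReal hfin
    rw [← ENNReal.tsum_toReal_eq (fun i => ?_)] at h4
    · simpa only [h2] using h4
    · exact ENNReal.ne_top_of_tsum_ne_top hfin i
  have h5 : Function.support (fun i => ‖a (b i)‖ ^ p) ⊆ {k | a (b k) ≠ 0} := by
    intro k hk h0
    apply hk
    simp only [h0, norm_zero]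
    exact Real.zero_rpow hp.ne'
  exact (hasSum_subtype_iff_of_support_subset h5).2 h3

theorem pair_hasSum {ι : Type*} (b : HilbertBasis ι ℂ H) (a : H →L[ℂ] H) (x y : H) :
    HasSum (fun k : {k // a (b k) ≠ 0} => ⟪b k, x⟫_ℂ * ⟪y, a (b k)⟫_ℂ) ⟪y, a x⟫_ℂ := by
  have h1 := b.hasSum_repr x
  have h2 : HasSum (fun i => ⟪b i, x⟫_ℂ * ⟪y, a (b i)⟫_ℂ) ⟪y, a x⟫_ℂ := by
    have h3 := ((innerSL ℂ y).comp a).hasSum h1
    have h4 : (fun i => ((innerSL ℂ y).comp a) (b.repr x i • b i))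
        = fun i => ⟪b i, x⟫_ℂ * ⟪y, a (b i)⟫_ℂ := by
      funext i
      rw [map_smul, smul_eq_mul, HilbertBasis.repr_apply_apply]
      rfl
    rw [h4] at h3
    exact h3
  have h5 : Function.support (fun i => ⟪b i, x⟫_ℂ * ⟪y, a (b i)⟫_ℂ) ⊆ {k | a (b k) ≠ 0} := by
    intro k hk h0
    apply hk
    simp only [h0, inner_zero_right, mul_zero]
  exact (hasSum_subtype_iff_of_support_subset h5).2 h2

theorem lsv_inner {ι : Type*} (b : HilbertBasis ι ℂ H) (a : H →L[ℂ] H) (k : ι) :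
    ⟪lsv b a k, a (b k)⟫_ℂ = ((‖a (b k)‖ : ℝ) : ℂ) := by
  unfold lsv
  rw [inner_smul_left, Complex.conj_ofReal, inner_self_eq_norm_sq_to_K]
  by_cases h : a (b k) = 0
  · simp [h]
  · have h1 : ‖a (b k)‖ ≠ 0 := by simpa using h
    have h2 : ((‖a (b k)‖ : ℝ) : ℂ) ≠ 0 := by exact_mod_cast h1
    push_cast
    field_simp
    rfl

end Pool.Agent.R450.Cl
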