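import Mathlib
import Pool.Agent.R450.Cl.Hom

/-!
The two Clarkson type inequalities for a general real matrix with orthogonal columns.
-/

namespace Pool.Agent.R450.Cl

open ContinuousLinearMap InnerProductSpace Filter
open scoped ENNReal Topology
open Pool.Agent.Helper872.Sch

universe u
variable {H : Type u} [NormedAddCommGroup H] [InnerProductSpace ℂ H] [CompleteSpace H]
variable {I J : Type*} [Fintype I] [Fintype J] [DecidableEq J]

/-- tendsto along the product filter of finite subsets -/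
theorem tendsto_pi_sum {K : J → Type*} {g : ∀ j, K j → ℂ} {j : J} {a : ℂ} (h : HasSum (g j) a) :
    Tendsto (fun T : ∀ j, Finset (K j) => ∑ k ∈ T j, g j k) (Filter.pi fun _ => atTop) (𝓝 a) := by
  have h1 : Tendsto (fun s : Finset (K j) => ∑ k ∈ s, g j k) atTop (𝓝 a) := h
  exact h1.comp (tendsto_eval_pi (fun j => (atTop : Filter (Finset (K j)))) j)

theorem tendsto_pi_sumR {K : J → Type*} {g : ∀ j, K j → ℝ} {j : J} {a : ℝ} (h : HasSum (g j) a) :
    Tendsto (fun T : ∀ j, Finset (K j) => ∑ k ∈ T j, g j k) (Filter.pi fun _ => atTop) (𝓝 a) := by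
  have h1 : Tendsto (fun s : Finset (K j) => ∑ k ∈ s, g j k) atTop (𝓝 a) := h
  exact h1.comp (tendsto_eval_pi (fun j => (atTop : Filter (Finset (K j)))) j)

/-- Orthonormality along a finite subset of a subtype. -/
theorem ortho_coe {K : Type*} {g : K → H} (h : Orthonormal ℂ g) (T : Finset K) :
    Orthonormal ℂ (fun k : T => g k) := h.comp _ Subtype.val_injective

/-- Pairing inequality after passing to the limit in the operators. -/
theorem pairing {M : I → J → ℝ} {N : ℝ} (hN : 0 ≤ N) (hM1 : ∀ l j, |M l j| ≤ 1)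
    (hM : ∀ j j', ∑ l, M l j * M l j' = if j = j' then N else 0)
    {κ : I → Type*} [∀ l, Fintype (κ l)] {d : ∀ l, κ l → ℝ} {e f : ∀ l, κ l → H}
    (he : ∀ l, Orthonormal ℂ (e l)) (hf : ∀ l, Orthonormal ℂ (f l)) (hd : ∀ l i, 0 < d l i)
    {p q : ℝ} (hpq : p.HolderConjugate q) (hp2 : p ≤ 2)
    (A : J → H →L[ℂ] H) (hA : ∀ j, IsCompactOperator (A j)) (hfin : ∀ j, trPow p (A j) ≠ ⊤) :
    ‖∑ l, ∑ i, (d l i : ℂ) * ⟪f l i, ∑ j, (M l j : ℂ) • A j (e l i)⟫_ℂ‖
      ≤ N ^ (1 / q) * (∑ j, (trPow p (A j)).toReal) ^ (1 / p)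
        * (∑ l, (∑ i, d l i ^ q) ^ (p / q)) ^ (1 / p) := by
  have hp0 : 0 < p := hpq.pos
  choose ι b hb using fun j => exists_singBasis (A j) (compact_star_mul (hA j))
  let K : J → Type u := fun j => {k // A j (b j k) ≠ 0}
  have hD0 : 0 ≤ (∑ l, (∑ i, d l i ^ q) ^ (p / q)) ^ (1 / p) := by
    apply Real.rpow_nonneg
    refine Finset.sum_nonneg fun l _ => Real.rpow_nonneg (Finset.sum_nonneg fun i _ => ?_) _
    exact (Real.rpow_pos_of_pos (hd l i) q).le
  have hbound : ∀ T : ∀ j, Finset (K j),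
      ‖∑ l, ∑ i, (d l i : ℂ) * ∑ j, (M l j : ℂ) * ∑ k ∈ T j,
        (⟪b j k, e l i⟫_ℂ * ⟪f l i, A j (b j k)⟫_ℂ)‖
      ≤ N ^ (1 / q) * (∑ j, ∑ k ∈ T j, ‖A j (b j k)‖ ^ p) ^ (1 / p)
        * (∑ l, (∑ i, d l i ^ q) ^ (p / q)) ^ (1 / p) := by
    intro T
    have h := key_hom hN hM1 hM he hf hd (τ := fun j => T j)
      (s := fun j k => ‖A j (b j k)‖) (u := fun j k => b j k) (v := fun j k => lsv (b j) (A j) k)
      (fun j => (b j).orthonormal.comp (fun k : T j => ((k : K j) : ι j))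
        (fun x y hxy => Subtype.ext (Subtype.ext hxy)))
      (fun j => ortho_coe (lsv_orthonormal (hb j)) (T j))
      (fun j k => norm_pos_iff.2 (k : K j).2) hpq hp2
    have e1 : ∀ l i j, ∑ k ∈ T j, (⟪b j k, e l i⟫_ℂ * ⟪f l i, A j (b j k)⟫_ℂ)
        = ∑ k : T j, ((‖A j (b j k)‖ : ℝ) : ℂ) * (⟪b j k, e l i⟫_ℂ * ⟪f l i, lsv (b j) (A j) k⟫_ℂ) := by
      intro l i j
      rw [← Finset.sum_coe_sort]
      refine Finset.sum_congr rfl fun k _ => ?_
      conv_lhs => rw [lsv_spec (b j) (A j) k]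
      rw [inner_smul_right]
      ring
    have e2 : ∀ j, ∑ k ∈ T j, ‖A j (b j k)‖ ^ p = ∑ k : T j, ‖A j (b j k)‖ ^ p := by
      intro j
      rw [← Finset.sum_coe_sort]
    simp only [e1, e2]
    exact h
  have hlim1 : Tendsto (fun T : ∀ j, Finset (K j) =>
      ‖∑ l, ∑ i, (d l i : ℂ) * ∑ j, (M l j : ℂ) * ∑ k ∈ T j,
        (⟪b j k, e l i⟫_ℂ * ⟪f l i, A j (b j k)⟫_ℂ)‖) (Filter.pi fun _ => atTop)
      (𝓝 ‖∑ l, ∑ i, (d l i : ℂ) * ∑ j, (M l j : ℂ) * ⟪f l i, A j (e l i)⟫_ℂ‖) := by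
    apply Tendsto.norm
    refine tendsto_finsetSum _ fun l _ => tendsto_finsetSum _ fun i _ => ?_
    apply Tendsto.const_mul
    refine tendsto_finsetSum _ fun j _ => ?_
    apply Tendsto.const_mul
    exact tendsto_pi_sum (K := K)
      (g := fun j k => ⟪b j k, e l i⟫_ℂ * ⟪f l i, A j (b j k)⟫_ℂ) (pair_hasSum (b j) (A j) _ _)
  have hlim2 : Tendsto (fun T : ∀ j, Finset (K j) =>
      N ^ (1 / q) * (∑ j, ∑ k ∈ T j, ‖A j (b j k)‖ ^ p) ^ (1 / p)
        * (∑ l, (∑ i, d l i ^ q) ^ (p / q)) ^ (1 / p)) (Filter.pi fun _ => atTop)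
      (𝓝 (N ^ (1 / q) * (∑ j, (trPow p (A j)).toReal) ^ (1 / p)
        * (∑ l, (∑ i, d l i ^ q) ^ (p / q)) ^ (1 / p))) := by
    apply Tendsto.mul_const
    apply Tendsto.const_mul
    apply Tendsto.rpow_const _ (Or.inr (by positivity))
    refine tendsto_finsetSum _ fun j _ => ?_
    exact tendsto_pi_sumR (K := K) (g := fun j k => ‖A j (b j k)‖ ^ p)
      (sing_hasSum (hb j) (hA j) hp0 (hfin j))
  have hle := le_of_tendsto_of_tendsto' hlim1 hlim2 hbound
  have e3 : ∀ l i, ⟪f l i, ∑ j, (M l j : ℂ) • A j (e l i)⟫_ℂ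
      = ∑ j, (M l j : ℂ) * ⟪f l i, A j (e l i)⟫_ℂ := by
    intro l i
    rw [inner_sum]
    refine Finset.sum_congr rfl fun j _ => ?_
    rw [inner_smul_right]
  simp only [e3]
  exact hle

/-- finite sums preserve the Schatten class -/
theorem trPow_sum_ne_top {p : ℝ} (hp : 1 ≤ p) (c : J → ℂ) (A : J → H →L[ℂ] H)
    (hA : ∀ j, IsCompactOperator (A j)) (hfin : ∀ j, trPow p (A j) ≠ ⊤) (s : Finset J) :
    IsCompactOperator (∑ j ∈ s, c j • A j : H →L[ℂ] H) ∧
      trPow p (∑ j ∈ s, c j • A j : H →L[ℂ] H) ≠ ⊤ := by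
  have hp0 : 0 < p := by linarith
  induction s using Finset.induction_on with
  | empty =>
    simp only [Finset.sum_empty]
    refine ⟨isCompactOperator_zero, ?_⟩
    rw [trPow_zero hp0]
    exact ENNReal.zero_ne_top
  | insert a s ha ih =>
    simp only [Finset.sum_insert ha]
    have h1 : IsCompactOperator (c a • A a : H →L[ℂ] H) := (hA a).smul (c a)
    refine ⟨h1.add ih.1, ?_⟩
    have h2 : trPow p (c a • A a) ≠ ⊤ := by
      rw [trPow_smul (hA a) hp0]
      exact ENNReal.mul_ne_top (ENNReal.rpow_ne_top_of_nonneg hp0.le enorm_ne_top) (hfin a)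
    have h3 := trPow_add_le h1 ih.1 hp
    intro htop
    rw [htop, ENNReal.top_rpow_of_pos (by positivity)] at h3
    have h4 : (trPow p (c a • A a)) ^ (1 / p) + (trPow p (∑ j ∈ s, c j • A j)) ^ (1 / p) ≠ ⊤ :=
      ENNReal.add_ne_top.2 ⟨ENNReal.rpow_ne_top_of_nonneg (by positivity) h2,
        ENNReal.rpow_ne_top_of_nonneg (by positivity) ih.2⟩
    exact h4 (top_le_iff.1 h3)

/-- The inequality for `1 < p ≤ 2`. -/
theorem upper {M : I → J → ℝ} {N : ℝ} (hN : 0 ≤ N) (hM1 : ∀ l j, |M l j| ≤ 1)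
    (hM : ∀ j j', ∑ l, M l j * M l j' = if j = j' then N else 0)
    {p q : ℝ} (hpq : p.HolderConjugate q) (hp2 : p ≤ 2)
    (A : J → H →L[ℂ] H) (hA : ∀ j, IsCompactOperator (A j)) (hfin : ∀ j, trPow p (A j) ≠ ⊤) :
    ∑ l, (trPow p (∑ j, (M l j : ℂ) • A j)).toReal ^ (q / p)
      ≤ N * (∑ j, (trPow p (A j)).toReal) ^ (q / p) := by
  classical
  have hp0 : 0 < p := hpq.pos
  have hq0 : 0 < q := hpq.symm.pos
  have hp1 : 1 < p := hpq.lt
  have hrel : 1 / p + 1 / q = 1 := by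
    have := hpq.inv_add_inv_eq_one
    simpa [one_div] using this
  have hqp : q / p = q - 1 := by
    field_simp at hrel ⊢
    linarith
  have hpq' : p / q = p - 1 := by
    field_simp at hrel ⊢
    linarith
  obtain ⟨B, hB⟩ : ∃ B : I → H →L[ℂ] H, ∀ l, ∑ j, (M l j : ℂ) • A j = B l := ⟨_, fun l => rfl⟩
  simp only [hB]
  have hBc : ∀ l, IsCompactOperator (B l) := fun l => by
    rw [← hB]
    exact (trPow_sum_ne_top hp1.le (fun j => (M l j : ℂ)) A hA hfin Finset.univ).1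
  have hBf : ∀ l, trPow p (B l) ≠ ⊤ := fun l => by
    rw [← hB]
    exact (trPow_sum_ne_top hp1.le (fun j => (M l j : ℂ)) A hA hfin Finset.univ).2
  have hBx : ∀ l x, ∑ j, (M l j : ℂ) • A j x = B l x := fun l x => by
    rw [← hB]
    simp only [ContinuousLinearMap.sum_apply, ContinuousLinearMap.smul_apply]
  choose ι c hc using fun l => exists_singBasis (B l) (compact_star_mul (hBc l))
  let K : I → Type u := fun l => {k // B l (c l k) ≠ 0}
  have hX0 : 0 ≤ ∑ j, (trPow p (A j)).toReal := Finset.sum_nonneg fun j _ => ENNReal.toReal_nonneg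
  have hbound : ∀ S : ∀ l, Finset (K l),
      ∑ l, (∑ i ∈ S l, ‖B l (c l i)‖ ^ p) ^ (q / p)
        ≤ N * (∑ j, (trPow p (A j)).toReal) ^ (q / p) := by
    intro S
    set t : I → ℝ := fun l => ∑ i ∈ S l, ‖B l (c l i)‖ ^ p with ht
    have htp : ∀ l, ∀ i : S l, 0 < ‖B l (c l i)‖ := fun l i => norm_pos_iff.2 (i : K l).2
    have ht0 : ∀ l, 0 ≤ t l := fun l =>
      Finset.sum_nonneg fun i _ => Real.rpow_nonneg (norm_nonneg _) _
    have htpos : ∀ l, S l → 0 < t l := by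
      intro l i
      refine lt_of_lt_of_le (Real.rpow_pos_of_pos (htp l i) p) ?_
      exact Finset.single_le_sum (f := fun i : K l => ‖B l (c l i)‖ ^ p)
        (fun i _ => Real.rpow_nonneg (norm_nonneg _) _) i.2
    set T := ∑ l, t l ^ (q / p) with hT
    have hT0 : 0 ≤ T := Finset.sum_nonneg fun l _ => Real.rpow_nonneg (ht0 l) _
    have h := pairing hN hM1 hM (κ := fun l => S l)
      (d := fun l i => t l ^ (q / p - 1) * ‖B l (c l i)‖ ^ (p - 1))
      (e := fun l i => c l i) (f := fun l i => lsv (c l) (B l) i)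
      (fun l => (c l).orthonormal.comp (fun k : S l => ((k : K l) : ι l))
        (fun x y hxy => Subtype.ext (Subtype.ext hxy)))
      (fun l => ortho_coe (lsv_orthonormal (hc l)) (S l))
      (fun l i => mul_pos (Real.rpow_pos_of_pos (htpos l i) _) (Real.rpow_pos_of_pos (htp l i) _))
      hpq hp2 A hA hfin
    have e1 : ∑ l, ∑ i : S l, ((t l ^ (q / p - 1) * ‖B l (c l i)‖ ^ (p - 1) : ℝ) : ℂ) *
        ⟪lsv (c l) (B l) i, ∑ j, (M l j : ℂ) • A j (c l i)⟫_ℂ = ((T : ℝ) : ℂ) := by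
      rw [hT, Complex.ofReal_sum]
      refine Finset.sum_congr rfl fun l _ => ?_
      have e2 : ∀ i : S l, ((t l ^ (q / p - 1) * ‖B l (c l i)‖ ^ (p - 1) : ℝ) : ℂ) *
          ⟪lsv (c l) (B l) i, ∑ j, (M l j : ℂ) • A j (c l i)⟫_ℂ
          = ((t l ^ (q / p - 1) * ‖B l (c l i)‖ ^ p : ℝ) : ℂ) := by
        intro i
        rw [hBx, lsv_inner, ← Complex.ofReal_mul]
        congr 1
        rw [mul_assoc]
        congr 1
        conv_lhs => rw [← Real.rpow_one ‖B l (c l i)‖]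
        rw [← Real.rpow_mul (norm_nonneg _), ← Real.rpow_add (htp l i)]
        congr 1
        ring
      rw [Finset.sum_congr rfl fun i _ => e2 i, ← Complex.ofReal_sum, ← Finset.mul_sum]
      congr 1
      rw [Finset.sum_coe_sort (S l) (fun i : K l => ‖B l (c l i)‖ ^ p)]
      change t l ^ (q / p - 1) * t l = t l ^ (q / p)
      rcases eq_or_lt_of_le (ht0 l) with h0 | h0
      · rw [← h0, mul_zero, Real.zero_rpow (by positivity)]
      · conv_lhs => rw [← Real.rpow_one (t l)]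
        rw [← Real.rpow_mul h0.le, ← Real.rpow_add h0]
        congr 1
        ring
    have e4 : ∀ l, (∑ i : S l, (t l ^ (q / p - 1) * ‖B l (c l i)‖ ^ (p - 1)) ^ q) ^ (p / q)
        = t l ^ (q / p) := by
      intro l
      have e5 : ∀ i : S l, (t l ^ (q / p - 1) * ‖B l (c l i)‖ ^ (p - 1)) ^ q
          = t l ^ ((q / p - 1) * q) * ‖B l (c l i)‖ ^ p := by
        intro i
        rw [Real.mul_rpow (Real.rpow_nonneg (ht0 l) _) (Real.rpow_nonneg (norm_nonneg _) _),
          ← Real.rpow_mul (ht0 l), ← Real.rpow_mul (norm_nonneg _)]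
        congr 2
        field_simp at hrel ⊢
        linarith
      simp only [e5, ← Finset.mul_sum]
      rw [Finset.sum_coe_sort (S l) (fun i : K l => ‖B l (c l i)‖ ^ p)]
      change (t l ^ ((q / p - 1) * q) * t l) ^ (p / q) = t l ^ (q / p)
      rcases eq_or_lt_of_le (ht0 l) with h0 | h0
      · rw [← h0, mul_zero, Real.zero_rpow (by positivity), Real.zero_rpow (by positivity)]
      · conv_lhs => rw [← Real.rpow_one (t l)]
        rw [← Real.rpow_mul h0.le, ← Real.rpow_add h0, ← Real.rpow_mul h0.le]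
        congr 1
        rw [hqp, hpq']
        have h9 : p * q = p + q := by
          field_simp at hrel
          linarith
        have h8 : q / p = q - 1 := hqp
        nlinarith
    rw [e1] at h
    simp only [e4] at h
    rw [Complex.norm_real, Real.norm_of_nonneg hT0] at h
    change T ≤ N ^ (1 / q) * (∑ j, (trPow p (A j)).toReal) ^ (1 / p) * T ^ (1 / p) at h
    rcases eq_or_lt_of_le hT0 with hT1 | hT1
    · rw [← hT1]
      exact mul_nonneg hN (Real.rpow_nonneg hX0 _)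
    · have h5 : T ^ (1 / q) ≤ N ^ (1 / q) * (∑ j, (trPow p (A j)).toReal) ^ (1 / p) := by
        have h6 : T = T ^ (1 / q) * T ^ (1 / p) := by
          rw [← Real.rpow_add hT1, add_comm, hrel, Real.rpow_one]
        have h7 : 0 < T ^ (1 / p) := Real.rpow_pos_of_pos hT1 _
        refine le_of_mul_le_mul_right ?_ h7
        rw [← h6]
        exact h
      have h8 : (T ^ (1 / q)) ^ q ≤ (N ^ (1 / q) * (∑ j, (trPow p (A j)).toReal) ^ (1 / p)) ^ q :=
        Real.rpow_le_rpow (Real.rpow_nonneg hT0 _) h5 hq0.le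
      rw [← Real.rpow_mul hT0, one_div, inv_mul_cancel₀ hq0.ne', Real.rpow_one,
        Real.mul_rpow (Real.rpow_nonneg hN _) (Real.rpow_nonneg hX0 _), ← Real.rpow_mul hN,
        inv_mul_cancel₀ hq0.ne', Real.rpow_one, ← Real.rpow_mul hX0] at h8
      rw [show q / p = 1 / p * q by ring]
      exact h8
  have hlim : Tendsto (fun S : ∀ l, Finset (K l) =>
      ∑ l, (∑ i ∈ S l, ‖B l (c l i)‖ ^ p) ^ (q / p)) (Filter.pi fun _ => atTop)
      (𝓝 (∑ l, (trPow p (B l)).toReal ^ (q / p))) := by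
    refine tendsto_finsetSum _ fun l _ => ?_
    apply Tendsto.rpow_const _ (Or.inr (by positivity))
    exact tendsto_pi_sumR (K := K) (g := fun l k => ‖B l (c l k)‖ ^ p)
      (sing_hasSum (hc l) (hBc l) hp0 (hBf l))
  exact le_of_tendsto' hlim hbound

/-- The inequality for `2 ≤ p`. -/
theorem lower {M : I → J → ℝ} {N : ℝ} (hN : 0 < N) (hM1 : ∀ l j, |M l j| ≤ 1)
    (hM : ∀ j j', ∑ l, M l j * M l j' = if j = j' then N else 0)
    {p q : ℝ} (hpq : p.HolderConjugate q) (hp2 : 2 ≤ p)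
    (A : J → H →L[ℂ] H) (hA : ∀ j, IsCompactOperator (A j)) (hfin : ∀ j, trPow p (A j) ≠ ⊤) :
    N * (∑ j, (trPow p (A j)).toReal) ^ (q / p) ≤
      ∑ l, (trPow p (∑ j, (M l j : ℂ) • A j)).toReal ^ (q / p) := by
  classical
  have hp0 : 0 < p := hpq.pos
  have hq0 : 0 < q := hpq.symm.pos
  have hp1 : 1 < p := hpq.lt
  have hrel : 1 / p + 1 / q = 1 := by
    have := hpq.inv_add_inv_eq_one
    simpa [one_div] using this
  have hq2 : q ≤ 2 := by
    by_contra hlt
    push Not at hlt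
    have h2 : 1 / q < 1 / 2 := one_div_lt_one_div_of_lt (by norm_num) hlt
    have h3 : 1 / p ≤ 1 / 2 := one_div_le_one_div_of_le (by norm_num) hp2
    linarith
  have hpq1 : (p - 1) * q = p := by
    field_simp at hrel
    linarith
  obtain ⟨B, hB⟩ : ∃ B : I → H →L[ℂ] H, ∀ l, ∑ j, (M l j : ℂ) • A j = B l := ⟨_, fun l => rfl⟩
  simp only [hB]
  have hBc : ∀ l, IsCompactOperator (B l) := fun l => by
    rw [← hB]
    exact (trPow_sum_ne_top hp1.le (fun j => (M l j : ℂ)) A hA hfin Finset.univ).1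
  have hBf : ∀ l, trPow p (B l) ≠ ⊤ := fun l => by
    rw [← hB]
    exact (trPow_sum_ne_top hp1.le (fun j => (M l j : ℂ)) A hA hfin Finset.univ).2
  have hBx : ∀ l x, B l x = ∑ j, (M l j : ℂ) • A j x := fun l x => by
    rw [← hB]
    simp only [ContinuousLinearMap.sum_apply, ContinuousLinearMap.smul_apply]
  have hinv : ∀ j x, ∑ l, (M l j : ℂ) • B l x = (N : ℂ) • A j x := by
    intro j x
    simp only [hBx, Finset.smul_sum, smul_smul]
    rw [Finset.sum_comm]
    simp only [← Finset.sum_smul, ← Complex.ofReal_mul, ← Complex.ofReal_sum, hM]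
    rw [Finset.sum_eq_single j]
    · rw [if_pos rfl]
    · intro j' _ hj
      rw [if_neg (fun h => hj h.symm), Complex.ofReal_zero, zero_smul]
    · intro h
      exact absurd (Finset.mem_univ j) h
  choose ι c hc using fun l => exists_singBasis (B l) (compact_star_mul (hBc l))
  choose ι' b hb using fun j => exists_singBasis (A j) (compact_star_mul (hA j))
  let K : I → Type u := fun l => {k // B l (c l k) ≠ 0}
  let K' : J → Type u := fun j => {k // A j (b j k) ≠ 0}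
  set R := ∑ l, (trPow p (B l)).toReal ^ (q / p) with hR
  have hR0 : 0 ≤ R := Finset.sum_nonneg fun l _ => Real.rpow_nonneg ENNReal.toReal_nonneg _
  -- the bound for finite sets of singular values of the `A j`
  have hmain : ∀ T : ∀ j, Finset (K' j),
      N * ∑ j, ∑ k ∈ T j, ‖A j (b j k)‖ ^ p
        ≤ N ^ (1 / p) * (∑ j, ∑ k ∈ T j, ‖A j (b j k)‖ ^ p) ^ (1 / q) * R ^ (1 / q) := by
    intro T
    have hpos : ∀ j, ∀ k : T j, 0 < ‖A j (b j k)‖ := fun j k => norm_pos_iff.2 (k : K' j).2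
    have hbound : ∀ S : ∀ l, Finset (K l),
        ‖∑ l, ∑ j, (M l j : ℂ) * ∑ k : T j, ((‖A j (b j k)‖ ^ (p - 1) : ℝ) : ℂ) *
          ∑ i ∈ S l, (⟪c l i, b j k⟫_ℂ * ⟪lsv (b j) (A j) k, B l (c l i)⟫_ℂ)‖
        ≤ N ^ (1 / p) * (∑ j, ∑ k ∈ T j, ‖A j (b j k)‖ ^ p) ^ (1 / q)
          * (∑ l, (∑ i ∈ S l, ‖B l (c l i)‖ ^ p) ^ (q / p)) ^ (1 / q) := by
      intro S
      have h := key_hom hN.le hM1 hM (κ := fun l => S l)
        (d := fun l i => ‖B l (c l i)‖) (e := fun l i => lsv (c l) (B l) i) (f := fun l i => c l i)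
        (fun l => ortho_coe (lsv_orthonormal (hc l)) (S l))
        (fun l => (c l).orthonormal.comp (fun k : S l => ((k : K l) : ι l))
          (fun x y hxy => Subtype.ext (Subtype.ext hxy)))
        (fun l i => norm_pos_iff.2 (i : K l).2)
        (τ := fun j => T j) (s := fun j k => ‖A j (b j k)‖ ^ (p - 1))
        (u := fun j k => lsv (b j) (A j) k) (v := fun j k => b j k)
        (fun j => ortho_coe (lsv_orthonormal (hb j)) (T j))
        (fun j => (b j).orthonormal.comp (fun k : T j => ((k : K' j) : ι' j))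
          (fun x y hxy => Subtype.ext (Subtype.ext hxy)))
        (fun j k => Real.rpow_pos_of_pos (hpos j k) _) hpq.symm hq2
      have e1 : ∑ l, ∑ j, (M l j : ℂ) * ∑ k : T j, ((‖A j (b j k)‖ ^ (p - 1) : ℝ) : ℂ) *
          ∑ i ∈ S l, (⟪c l i, b j k⟫_ℂ * ⟪lsv (b j) (A j) k, B l (c l i)⟫_ℂ)
          = ∑ l, ∑ i : S l, ((‖B l (c l i)‖ : ℝ) : ℂ) * ∑ j, (M l j : ℂ) *
            ∑ k : T j, ((‖A j (b j k)‖ ^ (p - 1) : ℝ) : ℂ) *
              (⟪lsv (b j) (A j) k, lsv (c l) (B l) i⟫_ℂ * ⟪c l i, b j k⟫_ℂ) := by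
        refine Finset.sum_congr rfl fun l _ => ?_
        simp only [Finset.mul_sum]
        rw [Finset.sum_comm]
        refine Finset.sum_congr rfl fun j _ => ?_
        rw [Finset.sum_comm]
        refine ((Finset.sum_coe_sort (S l) _).symm).trans ?_
        refine Finset.sum_congr rfl fun i _ => Finset.sum_congr rfl fun k _ => ?_
        conv_lhs => rw [lsv_spec (c l) (B l) i]
        rw [inner_smul_right]
        ring
      have e2 : ∀ j, ∑ k ∈ T j, ‖A j (b j k)‖ ^ p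
          = ∑ k : T j, (‖A j (b j k)‖ ^ (p - 1)) ^ q := by
        intro j
        rw [← Finset.sum_coe_sort]
        refine Finset.sum_congr rfl fun k _ => ?_
        rw [← Real.rpow_mul (norm_nonneg _), hpq1]
      have e3 : ∀ l, ∑ i ∈ S l, ‖B l (c l i)‖ ^ p = ∑ i : S l, ‖B l (c l i)‖ ^ p := by
        intro l
        rw [← Finset.sum_coe_sort]
      rw [e1]
      simp only [e2, e3]
      exact h
    have hlim1 : Tendsto (fun S : ∀ l, Finset (K l) =>
        ‖∑ l, ∑ j, (M l j : ℂ) * ∑ k : T j, ((‖A j (b j k)‖ ^ (p - 1) : ℝ) : ℂ) *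
          ∑ i ∈ S l, (⟪c l i, b j k⟫_ℂ * ⟪lsv (b j) (A j) k, B l (c l i)⟫_ℂ)‖)
        (Filter.pi fun _ => atTop)
        (𝓝 ‖∑ l, ∑ j, (M l j : ℂ) * ∑ k : T j, ((‖A j (b j k)‖ ^ (p - 1) : ℝ) : ℂ) *
          ⟪lsv (b j) (A j) k, B l (b j k)⟫_ℂ‖) := by
      apply Tendsto.norm
      refine tendsto_finsetSum _ fun l _ => tendsto_finsetSum _ fun j _ => ?_
      apply Tendsto.const_mul
      refine tendsto_finsetSum _ fun k _ => ?_
      apply Tendsto.const_mul
      exact tendsto_pi_sum (K := K)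
        (g := fun l i => ⟪c l i, b j k⟫_ℂ * ⟪lsv (b j) (A j) k, B l (c l i)⟫_ℂ)
        (pair_hasSum (c l) (B l) _ _)
    have hlim2 : Tendsto (fun S : ∀ l, Finset (K l) =>
        N ^ (1 / p) * (∑ j, ∑ k ∈ T j, ‖A j (b j k)‖ ^ p) ^ (1 / q)
          * (∑ l, (∑ i ∈ S l, ‖B l (c l i)‖ ^ p) ^ (q / p)) ^ (1 / q)) (Filter.pi fun _ => atTop)
        (𝓝 (N ^ (1 / p) * (∑ j, ∑ k ∈ T j, ‖A j (b j k)‖ ^ p) ^ (1 / q) * R ^ (1 / q))) := by
      apply Tendsto.const_mul
      apply Tendsto.rpow_const _ (Or.inr (by positivity))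
      refine tendsto_finsetSum _ fun l _ => ?_
      apply Tendsto.rpow_const _ (Or.inr (by positivity))
      exact tendsto_pi_sumR (K := K) (g := fun l i => ‖B l (c l i)‖ ^ p)
        (sing_hasSum (hc l) (hBc l) hp0 (hBf l))
    have hle := le_of_tendsto_of_tendsto' hlim1 hlim2 hbound
    have e4 : ∑ l, ∑ j, (M l j : ℂ) * ∑ k : T j, ((‖A j (b j k)‖ ^ (p - 1) : ℝ) : ℂ) *
          ⟪lsv (b j) (A j) k, B l (b j k)⟫_ℂ
        = ((N * ∑ j, ∑ k ∈ T j, ‖A j (b j k)‖ ^ p : ℝ) : ℂ) := by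
      rw [Finset.sum_comm, Complex.ofReal_mul, Complex.ofReal_sum, Finset.mul_sum]
      refine Finset.sum_congr rfl fun j _ => ?_
      rw [← Finset.sum_coe_sort (T j), Complex.ofReal_sum, Finset.mul_sum]
      simp only [Finset.mul_sum]
      rw [Finset.sum_comm]
      refine Finset.sum_congr rfl fun k _ => ?_
      have e5 : ∑ l, (M l j : ℂ) * (((‖A j (b j k)‖ ^ (p - 1) : ℝ) : ℂ) *
          ⟪lsv (b j) (A j) k, B l (b j k)⟫_ℂ)
          = ((‖A j (b j k)‖ ^ (p - 1) : ℝ) : ℂ) *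
            ⟪lsv (b j) (A j) k, ∑ l, (M l j : ℂ) • B l (b j k)⟫_ℂ := by
        rw [inner_sum, Finset.mul_sum]
        refine Finset.sum_congr rfl fun l _ => ?_
        rw [inner_smul_right]
        ring
      rw [e5, hinv, inner_smul_right, lsv_inner]
      rw [← Complex.ofReal_mul, ← Complex.ofReal_mul, ← Complex.ofReal_mul]
      congr 1
      have e6 : ‖A j (b j k)‖ ^ p = ‖A j (b j k)‖ ^ (p - 1) * ‖A j (b j k)‖ := by
        conv_rhs => rw [← Real.rpow_one ‖A j (b j k)‖]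
        rw [← Real.rpow_mul (norm_nonneg _), ← Real.rpow_add (hpos j k)]
        congr 1
        ring
      rw [e6]
      ring
    rw [e4, Complex.norm_real, Real.norm_of_nonneg] at hle
    · exact hle
    · refine mul_nonneg hN.le (Finset.sum_nonneg fun j _ => Finset.sum_nonneg fun k _ => ?_)
      exact Real.rpow_nonneg (norm_nonneg _) _
  have hbound2 : ∀ T : ∀ j, Finset (K' j),
      N * (∑ j, ∑ k ∈ T j, ‖A j (b j k)‖ ^ p) ^ (q / p) ≤ R := by
    intro T
    have h := hmain T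
    have ht0 : 0 ≤ ∑ j, ∑ k ∈ T j, ‖A j (b j k)‖ ^ p :=
      Finset.sum_nonneg fun j _ => Finset.sum_nonneg fun k _ => Real.rpow_nonneg (norm_nonneg _) _
    set t := ∑ j, ∑ k ∈ T j, ‖A j (b j k)‖ ^ p with ht
    rcases eq_or_lt_of_le ht0 with h0 | h0
    · rw [← h0, Real.zero_rpow (by positivity), mul_zero]
      exact hR0
    · have h1 : N ^ (1 / q) * t ^ (1 / p) ≤ R ^ (1 / q) := by
        have h2 : N = N ^ (1 / q) * N ^ (1 / p) := by
          rw [← Real.rpow_add hN, add_comm, hrel, Real.rpow_one]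
        have h3 : t = t ^ (1 / p) * t ^ (1 / q) := by
          rw [← Real.rpow_add h0, hrel, Real.rpow_one]
        have h4 : 0 < N ^ (1 / p) * t ^ (1 / q) :=
          mul_pos (Real.rpow_pos_of_pos hN _) (Real.rpow_pos_of_pos h0 _)
        refine le_of_mul_le_mul_left ?_ h4
        calc N ^ (1 / p) * t ^ (1 / q) * (N ^ (1 / q) * t ^ (1 / p))
            = (N ^ (1 / q) * N ^ (1 / p)) * (t ^ (1 / p) * t ^ (1 / q)) := by ring
          _ = N * t := by rw [← h2, ← h3]
          _ ≤ _ := h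
      have h5 : (N ^ (1 / q) * t ^ (1 / p)) ^ q ≤ (R ^ (1 / q)) ^ q :=
        Real.rpow_le_rpow (mul_nonneg (Real.rpow_nonneg hN.le _) (Real.rpow_nonneg ht0 _)) h1 hq0.le
      rw [← Real.rpow_mul hR0, one_div, inv_mul_cancel₀ hq0.ne', Real.rpow_one,
        Real.mul_rpow (Real.rpow_nonneg hN.le _) (Real.rpow_nonneg ht0 _), ← Real.rpow_mul hN.le,
        inv_mul_cancel₀ hq0.ne', Real.rpow_one, ← Real.rpow_mul ht0] at h5
      rw [show q / p = 1 / p * q by ring]
      exact h5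
  have hlim : Tendsto (fun T : ∀ j, Finset (K' j) =>
      N * (∑ j, ∑ k ∈ T j, ‖A j (b j k)‖ ^ p) ^ (q / p)) (Filter.pi fun _ => atTop)
      (𝓝 (N * (∑ j, (trPow p (A j)).toReal) ^ (q / p))) := by
    apply Tendsto.const_mul
    apply Tendsto.rpow_const _ (Or.inr (by positivity))
    refine tendsto_finsetSum _ fun j _ => ?_
    exact tendsto_pi_sumR (K := K') (g := fun j k => ‖A j (b j k)‖ ^ p)
      (sing_hasSum (hb j) (hA j) hp0 (hfin j))
  exact le_of_tendsto' hlim hbound2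

end Pool.Agent.R450.Cl
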